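import Pool.Agent.Helper36.RN.GoalsG

/-! # Project RFn, existence part: packet FLV (torsion and curvature in the frame) -/

namespace Pool.Agent.Helper31.RN

open Finset Pool.Agent.Helper47.RFn
open Pool.Agent.Helper36.RN

section

variable {n : ℕ} {𝒜 : Type} [CommRing 𝒜] [Algebra ℝ 𝒜] (e : Ix n → Derivation ℝ 𝒜 𝒜)
  (A : Ix n → Ix n → 𝒜)

theorem Fd_mul (a : Ix n) (f g : 𝒜) :
    FR.Fd e A a (f * g) = f * FR.Fd e A a g + g * FR.Fd e A a f := by
  simp only [FR.Fd, Finset.mul_sum, ← Finset.sum_add_distrib]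
  refine Finset.sum_congr rfl fun i _ => ?_
  rw [Derivation.leibniz, smul_eq_mul, smul_eq_mul]
  ring

theorem Fd_sum (a : Ix n) {ι : Type} (s : Finset ι) (f : ι → 𝒜) :
    FR.Fd e A a (∑ k ∈ s, f k) = ∑ k ∈ s, FR.Fd e A a (f k) := by
  simp only [FR.Fd, map_sum, Finset.mul_sum]
  exact Finset.sum_comm

theorem Fd_one (a : Ix n) : FR.Fd e A a 1 = 0 := by
  simp only [FR.Fd, Derivation.map_one_eq_zero, mul_zero, Finset.sum_const_zero]

theorem Fd_zero (a : Ix n) : FR.Fd e A a 0 = 0 := by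
  simp only [FR.Fd, map_zero, mul_zero, Finset.sum_const_zero]

theorem Fd_ite (a : Ix n) (p : Prop) [Decidable p] : FR.Fd e A a (if p then 1 else 0) = 0 := by
  split_ifs
  · exact Fd_one e A a
  · exact Fd_zero e A a

theorem L1 (a b : Ix n) (X : Ix n → 𝒜) :
    ∑ i, ∑ j, A a i * A b j * e i (X j) = ∑ j, A b j * FR.Fd e A a (X j) := by
  rw [Finset.sum_comm]
  refine Finset.sum_congr rfl fun j _ => ?_
  rw [FR.Fd, Finset.mul_sum]
  exact Finset.sum_congr rfl fun i _ => by ring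

theorem L2 (a b : Ix n) (X : Ix n → 𝒜) :
    ∑ i, ∑ j, A a i * A b j * e j (X i) = ∑ i, A a i * FR.Fd e A b (X i) := by
  refine Finset.sum_congr rfl fun i _ => ?_
  rw [FR.Fd, Finset.mul_sum]
  exact Finset.sum_congr rfl fun j _ => by ring

omit [Algebra ℝ 𝒜] in
theorem L3 (a b : Ix n) (P Q : Ix n → 𝒜) :
    ∑ i, ∑ j, A a i * A b j * (P i * Q j) = (∑ i, A a i * P i) * ∑ j, A b j * Q j := by
  rw [Finset.sum_mul_sum]
  refine Finset.sum_congr rfl fun i _ => Finset.sum_congr rfl fun j _ => by ring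

omit [Algebra ℝ 𝒜] in
theorem L4 (a b : Ix n) (P Q : Ix n → 𝒜) :
    ∑ i, ∑ j, A a i * A b j * (P j * Q i) = (∑ j, A b j * P j) * ∑ i, A a i * Q i := by
  rw [mul_comm, Finset.sum_mul_sum]
  refine Finset.sum_congr rfl fun i _ => Finset.sum_congr rfl fun j _ => by ring

omit [Algebra ℝ 𝒜] in
theorem L5 (a b : Ix n) (P Q : Ix n → Ix n → 𝒜) :
    ∑ i, ∑ j, A a i * A b j * (∑ f, P j f * Q i f) =
      ∑ f, (∑ j, A b j * P j f) * ∑ i, A a i * Q i f := by
  simp only [Finset.mul_sum (s := Finset.univ) (f := fun f => P _ f * Q _ f)]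
  have h : ∀ i, ∑ j, ∑ f, A a i * A b j * (P j f * Q i f) =
      ∑ f, ∑ j, A a i * A b j * (P j f * Q i f) := fun i => Finset.sum_comm
  simp only [h]
  rw [Finset.sum_comm]
  exact Finset.sum_congr rfl fun f _ => L4 A a b (fun j => P j f) (fun i => Q i f)

omit [Algebra ℝ 𝒜] in
theorem L6 (a b : Ix n) (P Q : Ix n → Ix n → 𝒜) :
    ∑ i, ∑ j, A a i * A b j * (∑ f, P i f * Q j f) =
      ∑ f, (∑ i, A a i * P i f) * ∑ j, A b j * Q j f := by
  simp only [Finset.mul_sum (s := Finset.univ) (f := fun f => P _ f * Q _ f)]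
  have h : ∀ i, ∑ j, ∑ f, A a i * A b j * (P i f * Q j f) =
      ∑ f, ∑ j, A a i * A b j * (P i f * Q j f) := fun i => Finset.sum_comm
  simp only [h]
  rw [Finset.sum_comm]
  exact Finset.sum_congr rfl fun f _ => L3 A a b (fun i => P i f) (fun j => Q j f)

variable (n0 : Ix n → 𝒜) (θ : Ix n → Ix n → 𝒜) (w : Ix n → Ix n → Ix n → 𝒜)

/-- contraction of the structure functions -/
theorem C_contr (h : CH A θ w) (a b : Ix n) (X : Ix n → 𝒜) :
    ∑ f, FR.C e n0 A θ a b f * ∑ k, A f k * X k =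
      ∑ j, (FR.Fd e A a (A b j) - FR.Fd e A b (A a j)) * X j
        + (FR.nf n0 A a * ∑ k, A b k * X k - FR.nf n0 A b * ∑ k, A a k * X k) := by
  have e1 : ∀ f, FR.C e n0 A θ a b f * ∑ k, A f k * X k =
      (∑ j, (FR.Fd e A a (A b j) - FR.Fd e A b (A a j)) * θ j f) * (∑ k, A f k * X k)
      + (FR.nf n0 A a * (if b = f then ∑ k, A f k * X k else 0)
        - FR.nf n0 A b * (if a = f then ∑ k, A f k * X k else 0)) := by
    intro f
    rw [FR.C, add_mul, sub_mul, mul_assoc, mul_assoc]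
    simp only [ite_mul, one_mul, zero_mul]
  simp only [e1]
  rw [Finset.sum_add_distrib, Finset.sum_sub_distrib, ← Finset.mul_sum, ← Finset.mul_sum,
    Finset.sum_ite_eq Finset.univ b, Finset.sum_ite_eq Finset.univ a, if_pos (Finset.mem_univ _),
    if_pos (Finset.mem_univ _)]
  congr 1
  have e2 : ∀ f, (∑ j, (FR.Fd e A a (A b j) - FR.Fd e A b (A a j)) * θ j f) * (∑ k, A f k * X k) =
      ∑ j, ∑ k, (FR.Fd e A a (A b j) - FR.Fd e A b (A a j)) * X k * (θ j f * A f k) := by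
    intro f
    rw [Finset.sum_mul_sum]
    exact Finset.sum_congr rfl fun j _ => Finset.sum_congr rfl fun k _ => by ring
  simp only [e2]
  rw [Finset.sum_comm]
  refine Finset.sum_congr rfl fun j _ => ?_
  rw [Finset.sum_comm]
  simp only [← Finset.mul_sum, h.tA]
  simp

/-- (1) -/
theorem ta_eq (h : CH A θ w) (a b c : Ix n) :
    TC.ta e n0 A θ w a b c = TC.Ga A w a b c - TC.Ga A w b a c - FR.C e n0 A θ a b c := by
  have e0 : ∀ (a b c : Ix n), ∑ j, A b j * FR.Fd e A a (θ j c) =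
      - ∑ j, FR.Fd e A a (A b j) * θ j c := by
    intro a b c
    have h1 := congrArg (FR.Fd e A a) (h.At b c)
    rw [Fd_ite, Fd_sum] at h1
    simp only [Fd_mul] at h1
    rw [Finset.sum_add_distrib] at h1
    rw [eq_neg_iff_add_eq_zero, ← h1]
    congr 1
    exact Finset.sum_congr rfl fun j _ => by ring
  have e1 : TC.ta e n0 A θ w a b c =
      (∑ i, ∑ j, A a i * A b j * e i (θ j c)) - (∑ i, ∑ j, A a i * A b j * e j (θ i c))
      + ((∑ i, ∑ j, A a i * A b j * (∑ f, θ j f * w i f c))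
        - (∑ i, ∑ j, A a i * A b j * (∑ f, θ i f * w j f c)))
      - ((∑ i, ∑ j, A a i * A b j * (n0 i * θ j c)) -
        (∑ i, ∑ j, A a i * A b j * (n0 j * θ i c))) := by
    simp only [TC.ta, TC.T, ← Finset.sum_sub_distrib, ← Finset.sum_add_distrib]
    refine Finset.sum_congr rfl fun i _ => Finset.sum_congr rfl fun j _ => ?_
    rw [Finset.sum_sub_distrib]
    ring
  rw [e1, L1, L2, L5, L6, L3, L4, e0, e0]
  simp only [h.At, ite_mul, one_mul, zero_mul]
  rw [Finset.sum_ite_eq Finset.univ b, Finset.sum_ite_eq Finset.univ a, if_pos (Finset.mem_univ _),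
    if_pos (Finset.mem_univ _), FR.C, FR.nf, FR.nf, TC.Ga, TC.Ga]
  simp only [sub_mul, Finset.sum_sub_distrib]
  ring

/-- (2) -/
theorem K_eq (h : CH A θ w) (a b c d : Ix n) :
    TC.K e n0 A w a b c d = FR.Fd e A a (TC.Ga A w b c d) - FR.Fd e A b (TC.Ga A w a c d)
    + ∑ f, (TC.Ga A w b c f * TC.Ga A w a f d - TC.Ga A w a c f * TC.Ga A w b f d)
    - ∑ f, FR.C e n0 A θ a b f * TC.Ga A w f c d := by
  have e1 : TC.K e n0 A w a b c d =
      (∑ i, ∑ j, A a i * A b j * e i (w j c d)) - (∑ i, ∑ j, A a i * A b j * e j (w i c d))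
      + ((∑ i, ∑ j, A a i * A b j * (∑ f, w j c f * w i f d))
        - (∑ i, ∑ j, A a i * A b j * (∑ f, w i c f * w j f d)))
      - ((∑ i, ∑ j, A a i * A b j * (n0 i * w j c d)) -
        (∑ i, ∑ j, A a i * A b j * (n0 j * w i c d))) := by
    simp only [TC.K, TC.F, ← Finset.sum_sub_distrib, ← Finset.sum_add_distrib]
    refine Finset.sum_congr rfl fun i _ => Finset.sum_congr rfl fun j _ => ?_
    rw [Finset.sum_sub_distrib]
    ring
  have e2 : ∀ a b, FR.Fd e A a (TC.Ga A w b c d) =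
      ∑ j, A b j * FR.Fd e A a (w j c d) + ∑ j, FR.Fd e A a (A b j) * w j c d := by
    intro a b
    rw [TC.Ga, Fd_sum]
    simp only [Fd_mul]
    rw [Finset.sum_add_distrib]
    congr 1
    exact Finset.sum_congr rfl fun j _ => by ring
  have e3 := C_contr e A n0 θ w h a b (fun j => w j c d)
  have e4 : ∑ f, FR.C e n0 A θ a b f * TC.Ga A w f c d =
      ∑ j, (FR.Fd e A a (A b j) - FR.Fd e A b (A a j)) * w j c d
        + (FR.nf n0 A a * TC.Ga A w b c d - FR.nf n0 A b * TC.Ga A w a c d) := e3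
  rw [e1, e4, e2, e2, L1, L2, L5 A a b (fun j f => w j c f) (fun i f => w i f d),
    L6 A a b (fun i f => w i c f) (fun j f => w j f d), L3, L4]
  simp only [sub_mul, Finset.sum_sub_distrib, TC.Ga, FR.nf]
  ring

/-- (3) -/
theorem Fd_A (h : CH A θ w) (a b j : Ix n) :
    FR.Fd e A a (A b j) - FR.Fd e A b (A a j) =
    ∑ f, (TC.Ga A w a b f - TC.Ga A w b a f - TC.ta e n0 A θ w a b f) * A f j
      - FR.nf n0 A a * A b j + FR.nf n0 A b * A a j := by
  have e1 : ∀ f, TC.Ga A w a b f - TC.Ga A w b a f - TC.ta e n0 A θ w a b f =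
      FR.C e n0 A θ a b f := by
    intro f
    rw [ta_eq e A n0 θ w h]
    ring
  simp only [e1]
  have e2 := C_contr e A n0 θ w h a b (fun k => if k = j then 1 else 0)
  simp only [mul_ite, mul_one, mul_zero, Finset.sum_ite_eq', Finset.mem_univ, if_true] at e2
  rw [e2]
  ring

end

theorem flv : G_FLV := by
  intro n 𝒜 _ _ e n0 A θ w h
  exact ⟨ta_eq e A n0 θ w h, K_eq e A n0 θ w h, Fd_A e A n0 θ w h⟩

end Pool.Agent.Helper31.RN
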