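import Pool.Agent.Helper36.RN.Goals

/-! # Project RFn, existence part: packet WCV (words in `Ee` and words in `Ld`) -/

namespace Pool.Agent.Helper31.RN

open Set Filter Topology MeasureTheory Pool.Agent.Helper47.RFn Pool.Agent.Helper36.EV
open Pool.Agent.Helper36.RN

section general

set_option linter.unusedSectionVars false
variable {α : Type} [Fintype α] [DecidableEq α] {R : Type*} [CommRing R] [Algebra ℝ R]

/-- differential operators of order at most `m` -/
def InS (W : List α → R → R) (m : ℕ) (φ : R → R) : Prop :=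
  ∃ c : List α → R, ∀ u, φ u = ∑ w' ∈ Wn α m, c w' * W w' u

theorem InS.add {W : List α → R → R} {m : ℕ} {φ ψ : R → R} (h1 : InS W m φ) (h2 : InS W m ψ) :
    InS W m (fun u => φ u + ψ u) := by
  obtain ⟨c, hc⟩ := h1
  obtain ⟨d, hd⟩ := h2
  refine ⟨fun w => c w + d w, fun u => ?_⟩
  beta_reduce
  rw [hc, hd, ← Finset.sum_add_distrib]
  exact Finset.sum_congr rfl fun w _ => by ring

theorem InS.mul {W : List α → R → R} {m : ℕ} {φ : R → R} (a : R) (h1 : InS W m φ) :
    InS W m (fun u => a * φ u) := by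
  obtain ⟨c, hc⟩ := h1
  refine ⟨fun w => a * c w, fun u => ?_⟩
  beta_reduce
  rw [hc, Finset.mul_sum]
  exact Finset.sum_congr rfl fun w _ => by ring

theorem InS.zero {W : List α → R → R} {m : ℕ} : InS W m (fun _ => (0 : R)) :=
  ⟨fun _ => 0, fun u => by simp⟩

theorem InS.sum {W : List α → R → R} {m : ℕ} {ι : Type*} (s : Finset ι) (φ : ι → R → R)
    (h : ∀ i ∈ s, InS W m (φ i)) : InS W m (fun u => ∑ i ∈ s, φ i u) := by
  classical
  induction s using Finset.induction_on with
  | empty => simpa using InS.zero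
  | insert i s hi ih =>
    have h1 := (h i (Finset.mem_insert_self i s)).add
      (ih fun j hj => h j (Finset.mem_insert_of_mem hj))
    obtain ⟨c, hc⟩ := h1
    exact ⟨c, fun u => by beta_reduce; rw [Finset.sum_insert hi]; exact hc u⟩

theorem InS.word {W : List α → R → R} {m : ℕ} {w : List α} (hw : w.length ≤ m) :
    InS W m (W w) := by
  refine ⟨fun w' => if w' = w then 1 else 0, fun u => ?_⟩
  simp only [ite_mul, one_mul, zero_mul]
  rw [Finset.sum_ite_eq' (Wn α m) w (fun w' => W w' u), if_pos (mem_Wn.2 hw)]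

theorem InS.der {W : List α → R → R} {m : ℕ} {φ : R → R} (D : Derivation ℝ R R) (i : α)
    (hD : ∀ w u, D (W w u) = W (i :: w) u) (h : InS W m φ) :
    InS W (m + 1) (fun u => D (φ u)) := by
  obtain ⟨c, hc⟩ := h
  have h1 : InS W (m + 1) (fun u => ∑ w' ∈ Wn α m, (D (c w') * W w' u + c w' * W (i :: w') u)) := by
    refine InS.sum _ _ fun w' hw' => ?_
    have hl : w'.length ≤ m := mem_Wn.1 hw'
    refine InS.add (InS.mul _ (InS.word (by omega))) (InS.mul _ (InS.word ?_))
    rw [List.length_cons]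
    omega
  obtain ⟨d, hd⟩ := h1
  refine ⟨d, fun u => ?_⟩
  rw [← hd u]
  beta_reduce
  rw [hc u, map_sum]
  refine Finset.sum_congr rfl fun w' _ => ?_
  rw [Derivation.leibniz, hD, smul_eq_mul, smul_eq_mul]
  ring

/-- words in another family of derivations, with coefficients in the ring -/
theorem InS.words {β : Type} (W : List α → R → R) (V : List β → R → R)
    (D : α → Derivation ℝ R R) (E : β → Derivation ℝ R R)
    (hW0 : ∀ u, W [] u = u) (hV0 : ∀ u, V [] u = u)
    (hD : ∀ i w u, D i (W w u) = W (i :: w) u) (hE : ∀ i w u, E i (V w u) = V (i :: w) u)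
    (hED : ∀ j, ∃ a : α → R, ∀ u, E j u = ∑ i, a i * D i u) (w : List β) :
    InS W w.length (V w) := by
  induction w with
  | nil =>
    obtain ⟨c, hc⟩ := InS.word (W := W) (m := 0) (w := []) le_rfl
    exact ⟨c, fun u => by rw [hV0]; exact (hW0 u).symm.trans (hc u)⟩
  | cons j w ih =>
    obtain ⟨a, ha⟩ := hED j
    have h1 : InS W (w.length + 1) (fun u => ∑ i, a i * D i (V w u)) :=
      InS.sum _ _ fun i _ => InS.mul _ (InS.der (D i) i (hD i) ih)
    obtain ⟨c, hc⟩ := h1
    exact ⟨c, fun u => by rw [List.length_cons, ← hc u, ← hE, ha]⟩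

end general

variable {n : ℕ}

theorem bound_of {α : Type} [Fintype α] [DecidableEq α] (W : List α → XS n → XS n) (m : ℕ)
    (φ : XS n → XS n) (h : InS W m φ) : ∃ C, ∀ (u : XS n) (x : Om n),
      (φ u).1 x ^ 2 ≤ C * ∑ w' ∈ Wn α m, (W w' u).1 x ^ 2 := by
  obtain ⟨c, hc⟩ := h
  choose B hB using fun w => bdd_val (c w)
  refine ⟨∑ w ∈ Wn α m, B w ^ 2, fun u x => ?_⟩
  rw [hc u, sum_val]
  simp only [mul_val]
  refine (Finset.sum_mul_sq_le_sq_mul_sq _ _ _).trans ?_
  refine mul_le_mul_of_nonneg_right ?_ (Finset.sum_nonneg fun w _ => sq_nonneg _)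
  refine Finset.sum_le_sum fun w _ => ?_
  have h1 := hB w x
  rw [← sq_abs]
  exact pow_le_pow_left₀ (abs_nonneg _) h1 2

theorem wcv : G_WCV := by
  intro n
  have h1 : ∀ w : List (Fin (n + 1)), InS (fun (w : List (KK n)) (u : XS n) => Wd w u)
      w.length (fun u => We w u) := by
    intro w
    refine InS.words (fun (w : List (KK n)) (u : XS n) => Wd w u)
      (fun (w : List (Fin (n + 1))) (u : XS n) => We w u) Ld Ee (fun u => rfl) (fun u => rfl)
      (fun i w u => rfl) (fun i w u => rfl) (fun j => ?_) w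
    refine ⟨fun p => if p.2 = j then nu p.1 else 0, fun u => ?_⟩
    rw [Ee_def, Fintype.sum_prod_type]
    refine Finset.sum_congr rfl fun i _ => ?_
    simp only [ite_mul, zero_mul]
    rw [Finset.sum_ite_eq' Finset.univ j (fun k => nu i * Ld (i, k) u), if_pos (Finset.mem_univ _)]
  have h2 : ∀ w : List (KK n), InS (fun (w : List (Fin (n + 1))) (u : XS n) => We w u)
      w.length (fun u => Wd w u) := by
    intro w
    refine InS.words (fun (w : List (Fin (n + 1))) (u : XS n) => We w u)
      (fun (w : List (KK n)) (u : XS n) => Wd w u) Ee Ld (fun u => rfl) (fun u => rfl)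
      (fun i w u => rfl) (fun i w u => rfl) (fun p => ?_) w
    refine ⟨fun k => (if k = p.2 then nu p.1 else 0) - (if k = p.1 then nu p.2 else 0),
      fun u => ?_⟩
    obtain ⟨i, j⟩ := p
    rw [Ld_eq]
    simp only [sub_mul, ite_mul, zero_mul]
    rw [Finset.sum_sub_distrib, Finset.sum_ite_eq' Finset.univ j (fun k => nu i * Ee k u),
      Finset.sum_ite_eq' Finset.univ i (fun k => nu j * Ee k u), if_pos (Finset.mem_univ _),
      if_pos (Finset.mem_univ _)]
  exact ⟨h1, h2, fun w => bound_of _ _ _ (h1 w), fun w => bound_of _ _ _ (h2 w)⟩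

end Pool.Agent.Helper31.RN
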